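import Mathlib
import Pool.Agent.Q239.GPD.Main

/-!
# Sets without geometric progressions: `α < ᾱ`

The supremum `α` of the asymptotic densities of the sets of positive integers without three-term
geometric progressions (of rational ratio) is smaller than the supremum `ᾱ` of the upper densities
of such sets.

Idea of the proof. `α` is attained, by a set `A`. If `α = ᾱ` then no finite set in `[1, N]` without
geometric progressions is essentially larger than `A ∩ [1, N]`. In a short window `(N (1 - 1/V), N]`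
one can add to `A` all the integers which are not the largest term of a progression whose other terms
are in `A`, at the cost of the multiples of `v ^ 2`, `v > V`, in the window. Hence almost all integers
outside `A` are the largest term of such a progression: `A` is almost greedy. Almost every integer `n`
has a factorisation `n = s m` with `s` bounded and `m` squarefree, prime to `s`, with prime factors
larger than `√s`; along the multiples of `m` the greedy recursion involves only the numbers `s' m` with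
`s' ≤ s`, so `A` differs from Rankin's greedy set in a set of density zero. This contradicts the
theorem of the starting files (frozen statement S18848) that Rankin's set is not of largest density.
-/

set_option autoImplicit false

open Filter Topology

namespace Pool.Agent.Results.MP_9f86c8_nt.StrictInequality

open Pool.Agent.H413R3 Pool.Agent.Q239

/-- `(a, b, c) = (a, a k, a k ^ 2)` with a rational number `k > 1`. -/
def IsGP (a b c : ℕ) : Prop := ∃ k : ℚ, 1 < k ∧ (b : ℚ) = a * k ∧ (c : ℚ) = a * k ^ 2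

/-- `A` is a set of positive integers without three-term geometric progressions. -/
def GPFree (A : Set ℕ) : Prop := (∀ n ∈ A, 1 ≤ n) ∧ ∀ a ∈ A, ∀ b ∈ A, ∀ c ∈ A, ¬ IsGP a b c

/-- `A` has asymptotic density `d`. -/
def HasDensity (A : Set ℕ) (d : ℝ) : Prop :=
  Tendsto (fun N : ℕ => ((A ∩ Set.Icc 1 N).ncard : ℝ) / N) atTop (𝓝 d)

/-- The upper density of `A`. -/
noncomputable def upperDensity (A : Set ℕ) : ℝ :=
  limsup (fun N : ℕ => ((A ∩ Set.Icc 1 N).ncard : ℝ) / N) atTop

/-- The supremum `α` of the asymptotic densities of the sets without geometric progressions. -/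
noncomputable def alpha : ℝ := sSup {d : ℝ | ∃ A : Set ℕ, GPFree A ∧ HasDensity A d}

/-- The supremum `ᾱ` of the upper densities of the sets without geometric progressions. -/
noncomputable def alphaBar : ℝ := sSup {d : ℝ | ∃ A : Set ℕ, GPFree A ∧ upperDensity A = d}

lemma isGP_iff {a b c : ℕ} (ha : 1 ≤ a) : IsGP a b c ↔ a < b ∧ b < c ∧ b ^ 2 = a * c := by
  have ha' : (0 : ℚ) < a := by exact_mod_cast ha
  constructor
  · rintro ⟨k, hk, hb, hc⟩
    have h1 : (a : ℚ) < b := by rw [hb]; nlinarith
    have h2 : (b : ℚ) < c := by rw [hb, hc]; nlinarith [mul_pos ha' (by linarith : (0 : ℚ) < k)]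
    refine ⟨by exact_mod_cast h1, by exact_mod_cast h2, ?_⟩
    have h3 : (b : ℚ) ^ 2 = a * c := by rw [hb, hc]; ring
    exact_mod_cast h3
  · rintro ⟨h1, _, h3⟩
    have h3' : (b : ℚ) ^ 2 = a * c := by exact_mod_cast h3
    refine ⟨(b : ℚ) / a, ?_, by field_simp, ?_⟩
    · rw [one_lt_div ha']; exact_mod_cast h1
    · rw [div_pow, h3']
      field_simp

lemma gpFree_iff {A : Set ℕ} : GPFree A ↔ (∀ n ∈ A, 1 ≤ n) ∧ GPD.GF A := by
  unfold GPFree
  refine and_congr_right fun hA => ?_
  constructor
  · intro h a ha b hb c hc hab hbc heq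
    exact h a ha b hb c hc ((isGP_iff (hA a ha)).2 ⟨hab, hbc, heq⟩)
  · intro h a ha b hb c hc hg
    obtain ⟨h1, h2, h3⟩ := (isGP_iff (hA a ha)).1 hg
    exact h a ha b hb c hc h1 h2 h3

lemma gf_iff_KG {A : Set ℕ} (hA : ∀ n ∈ A, 1 ≤ n) : GPD.GF A ↔ ¬ KG.HasGP 3 A := by
  constructor
  · rintro h ⟨a, r, ha, hr, hall⟩
    obtain ⟨n0, m0, e0⟩ := hall 0 (by norm_num)
    obtain ⟨n1, m1, e1⟩ := hall 1 (by norm_num)
    obtain ⟨n2, m2, e2⟩ := hall 2 (by norm_num)
    rw [pow_zero, mul_one] at e0
    rw [pow_one] at e1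
    have h1 : (n0 : ℝ) < n1 := by rw [e0, e1]; nlinarith
    have h2 : (n1 : ℝ) < n2 := by
      rw [e1, e2]
      have : 0 < a * r := mul_pos ha (by linarith)
      nlinarith
    have h3 : (n1 : ℝ) ^ 2 = n0 * n2 := by rw [e0, e1, e2]; ring
    exact h n0 m0 n1 m1 n2 m2 (by exact_mod_cast h1) (by exact_mod_cast h2) (by exact_mod_cast h3)
  · intro h a ha b hb c hc hab hbc heq
    apply h
    have ha' : (0 : ℝ) < a := by exact_mod_cast hA a ha
    refine ⟨a, (b : ℝ) / a, ha', ?_, fun i hi => ?_⟩
    · rw [one_lt_div ha']; exact_mod_cast hab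
    · rcases (by omega : i = 0 ∨ i = 1 ∨ i = 2) with rfl | rfl | rfl
      · exact ⟨a, ha, by simp⟩
      · exact ⟨b, hb, by field_simp⟩
      · refine ⟨c, hc, ?_⟩
        have heq' : (b : ℝ) ^ 2 = a * c := by exact_mod_cast heq
        rw [div_pow, heq']
        field_simp

/-- **`α < ᾱ`.** The supremum of the asymptotic densities of the sets of positive integers without
three-term geometric progressions is strictly smaller than the supremum of their upper densities. -/
theorem result : alpha < alphaBar := by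
  obtain ⟨s, _, _, ⟨⟨A, a1, a2, a3⟩, hmax⟩, _⟩ := KG.full (k := 3) le_rfl
  have hAg : GPD.GF A := (gf_iff_KG a1).2 a2
  have hs : alpha = s := by
    apply IsGreatest.csSup_eq
    refine ⟨⟨A, gpFree_iff.2 ⟨a1, hAg⟩, a3⟩, ?_⟩
    rintro d ⟨B, hB, hBd⟩
    obtain ⟨b1, b2⟩ := gpFree_iff.1 hB
    exact hmax ⟨B, b1, (gf_iff_KG b1).1 b2, hBd⟩
  obtain ⟨A', p1, p2, ε, hε, h⟩ := GPD.exists_upper hAg a1 a3
    (fun B d b1 b2 b3 => hmax ⟨B, b1, (gf_iff_KG b1).1 b2, b3⟩)
  have hle1 : ∀ (B : Set ℕ) (N : ℕ), ((B ∩ Set.Icc 1 N).ncard : ℝ) / N ≤ 1 := by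
    intro B N
    apply div_le_one_of_le₀ _ (Nat.cast_nonneg N)
    exact_mod_cast KG.cnt_le B N
  have hbdd : ∀ B : Set ℕ, IsBoundedUnder (· ≤ ·) atTop
      (fun N : ℕ => ((B ∩ Set.Icc 1 N).ncard : ℝ) / N) := fun B =>
    isBoundedUnder_of ⟨1, hle1 B⟩
  have hcob : ∀ B : Set ℕ, IsCoboundedUnder (· ≤ ·) atTop
      (fun N : ℕ => ((B ∩ Set.Icc 1 N).ncard : ℝ) / N) := fun B =>
    (isBoundedUnder_of ⟨0, fun N => by
      show (0 : ℝ) ≤ ((B ∩ Set.Icc 1 N).ncard : ℝ) / N
      positivity⟩ : IsBoundedUnder (· ≥ ·) atTop _).isCoboundedUnder_le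
  have hup : s + ε ≤ upperDensity A' := by
    apply le_limsup_of_frequently_le _ (hbdd A')
    rw [frequently_atTop]
    intro N0
    obtain ⟨N, hN, hN1, hle⟩ := h N0
    refine ⟨N, hN, ?_⟩
    have hNpos : (0 : ℝ) < N := by exact_mod_cast hN1
    rw [le_div_iff₀ hNpos]
    exact hle
  have hbar : upperDensity A' ≤ alphaBar := by
    apply le_csSup
    · refine ⟨1, ?_⟩
      rintro d ⟨B, _, rfl⟩
      exact limsup_le_of_le (hcob B) (Eventually.of_forall (hle1 B))
    · exact ⟨A', gpFree_iff.2 ⟨p1, p2⟩, rfl⟩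
  rw [hs]
  linarith

end Pool.Agent.Results.MP_9f86c8_nt.StrictInequality
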